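import Pool.Agent.PV3.Stmts

/-!
Squad PV3, module DAT: the facet data of two polytopes with the same projection data.
-/

set_option autoImplicit false

open MeasureTheory Metric Set Filter Topology Pointwise

namespace PV3.H24

open PV

lemma coord_compact {m : ℕ} {u ν : E (m + 2)} {ι : E m →ₗᵢ[ℝ] E (m + 2)} (hu : ‖u‖ = 1)
    (hν : ‖ν‖ = 1) (huν : inner ℝ u ν = 0) (h1 : ∀ z, inner ℝ u (ι z) = 0)
    (h2 : ∀ z, inner ℝ ν (ι z) = 0) {K : Set (E (m + 2))} (hK : IsCompact K) :
    IsCompact (coord u ν ι ⁻¹' K) := by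
  have hb : Function.Bijective (PV.TR.coordL u ν ι) :=
    PV.TR.coord_bijective (by simp) hu hν huν h1 h2
  have he : (coord u ν ι ⁻¹' K) =
      (LinearEquiv.ofBijective (PV.TR.coordL u ν ι) hb).toContinuousLinearEquiv.symm '' K := by
    ext p
    constructor
    · intro hp
      refine ⟨coord u ν ι p, hp, ?_⟩
      exact (LinearEquiv.ofBijective (PV.TR.coordL u ν ι) hb).symm_apply_apply p
    · rintro ⟨x, hx, rfl⟩
      change PV.TR.coordL u ν ι _ ∈ K
      have h3 : PV.TR.coordL u ν ι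
          ((LinearEquiv.ofBijective (PV.TR.coordL u ν ι) hb).symm x) = x :=
        (LinearEquiv.ofBijective (PV.TR.coordL u ν ι) hb).apply_symm_apply x
      change PV.TR.coordL u ν ι
          ((LinearEquiv.ofBijective (PV.TR.coordL u ν ι) hb).symm x) ∈ K
      rw [h3]
      exact hx
  rw [he]
  exact hK.image (ContinuousLinearEquiv.continuous _)

lemma coord_convex {m : ℕ} {u ν : E (m + 2)} {ι : E m →ₗᵢ[ℝ] E (m + 2)} {K : Set (E (m + 2))}
    (hK : Convex ℝ K) : Convex ℝ (coord u ν ι ⁻¹' K) :=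
  hK.linear_preimage (PV.TR.coordL u ν ι)

/-- DAT. -/
theorem dat (hG : GENStmt) (hC : COOStmt) (hL : LIMStmt) (hF : FACStmt) : DATStmt := by
  intro n hn V c c' hU hsym hK hK' hdata w hw
  obtain ⟨m, rfl⟩ : ∃ m, n = m + 2 := ⟨n - 2, by omega⟩
  have hν : ‖w‖ = 1 := hU w hw
  obtain ⟨u, hu, huν, hgen⟩ := hG (m + 2) hn V w hU hν
  obtain ⟨ι, h1, h2, hmp⟩ := hC m u w hu hν huν
  obtain ⟨iX1, iX2, eX1, eX2, tX1, tX2⟩ := hF m V c u w ι hU hK.cpt.isBounded hw (hsym w hw) hu
    huν h1 h2 hgen hmp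
  obtain ⟨iY1, iY2, eY1, eY2, tY1, tY2⟩ := hF m V c' u w ι hU hK'.cpt.isBounded hw (hsym w hw) hu
    huν h1 h2 hgen hmp
  have hXc := coord_compact hu hν huν h1 h2 hK.cpt
  have hYc := coord_compact hu hν huν h1 h2 hK'.cpt
  have hXv : Convex ℝ (coord u w ι ⁻¹' Pl V c) := coord_convex hK.cvx
  have hYv : Convex ℝ (coord u w ι ⁻¹' Pl V c') := coord_convex hK'.cvx
  have htr := PV.tr (m + 2) (E m) (volume : Measure (E m)) u w ι (by simp) hu hν huν h1 h2
    (Pl V c) (Pl V c') hK.cpt hK'.cpt hK.full hK'.full hdata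
  have hτ : ∀ j : ℕ, (0 : ℝ) < 1 / ((j : ℝ) + 1) := fun j => by positivity
  have hτ0 : Tendsto (fun j : ℕ => 1 / ((j : ℝ) + 1)) atTop (𝓝 0) :=
    tendsto_one_div_add_atTop_nhds_zero_nat
  have key : ∀ (f : (ℝ × E m) →L[ℝ] ℝ) (k : ℝ), _ = _ := fun f k =>
    tendsto_nhds_unique (hL m _ hXc hXv f k _ hτ hτ0) (by
      have h3 := hL m _ hYc hYv f k _ hτ hτ0
      refine h3.congr fun j => ?_
      rw [← htr, ← htr, ← htr])
  constructor
  · have h3 := key 0 1
    simp only [ContinuousLinearMap.zero_apply, zero_add, mul_one] at h3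
    rw [integral_add iX1 iX2, integral_add iY1 iY2, eX1, eX2, eY1, eY2] at h3
    exact h3
  · have h3 := key (ContinuousLinearMap.fst ℝ ℝ (E m)) 0
    have aux : ∀ (d : E (m + 2) → ℝ) (X : Set (ℝ × ℝ × E m)),
        Integrable (fun z : E m => lt (KC.slice X z)) →
        Integrable (fun z : E m => lt (KC.refl (KC.slice X z))) →
        (∫ z : E m, lt (KC.slice X z) = fa V d w) →
        (∫ z : E m, lt (KC.refl (KC.slice X z)) = fa V d (-w)) →
        (∀ z : E m, lt (KC.slice X z) ≠ 0 → KC.T (KC.slice X z) 0 = d w) →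
        (∀ z : E m, lt (KC.refl (KC.slice X z)) ≠ 0 → KC.B (KC.slice X z) 0 = - d (-w)) →
        (∫ z : E m, (lt (KC.slice X z) *
            ((ContinuousLinearMap.fst ℝ ℝ (E m)) (KC.T (KC.slice X z) 0, z) + 0) +
          lt (KC.refl (KC.slice X z)) *
            ((ContinuousLinearMap.fst ℝ ℝ (E m)) (KC.B (KC.slice X z) 0, z) + 0))) =
        fa V d w * d w - fa V d (-w) * d (-w) := by
      intro d X i1 i2 e1 e2 t1 t2
      have h4 : (fun z : E m => (lt (KC.slice X z) *
            ((ContinuousLinearMap.fst ℝ ℝ (E m)) (KC.T (KC.slice X z) 0, z) + 0) +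
          lt (KC.refl (KC.slice X z)) *
            ((ContinuousLinearMap.fst ℝ ℝ (E m)) (KC.B (KC.slice X z) 0, z) + 0))) =
          fun z : E m => lt (KC.slice X z) * d w + lt (KC.refl (KC.slice X z)) * (- d (-w)) := by
        funext z
        simp only [ContinuousLinearMap.coe_fst', add_zero]
        by_cases ha : lt (KC.slice X z) = 0
        · by_cases hb : lt (KC.refl (KC.slice X z)) = 0
          · rw [ha, hb]; ring
          · rw [t2 z hb, ha]; ring
        · by_cases hb : lt (KC.refl (KC.slice X z)) = 0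
          · rw [t1 z ha, hb]; ring
          · rw [t1 z ha, t2 z hb]
      rw [h4, integral_add (i1.mul_const _) (i2.mul_const _), integral_mul_const,
        integral_mul_const, e1, e2]
      ring
    rw [aux c _ iX1 iX2 eX1 eX2 tX1 tX2, aux c' _ iY1 iY2 eY1 eY2 tY1 tY2] at h3
    exact h3

end PV3.H24
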